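import Pool.Agent.H44T.BR.Mot

/-!
# The motivic Tate conjecture: bounded defects vanish

Let `k` be a finitely generated field of characteristic zero, `G` its Galois group, `H^i(X)` the `ℓ`-adic
cohomology of `X ⊗ k'`, `k'` an algebraic closure, and `E(X) ⊆ H^(2r)(X)(r)^G` the `ℚ_ℓ`-span of the
motivated classes, or of the absolute Hodge classes, over `k`. The motivic Tate conjecture is the
conjunction of two statements for all smooth projective varieties `X` over `k`: all elements of
`H^(2r)(X)(r)^G` are in `E(X)`, for all `r`, and the representations `H^i(X)` are semisimple, for all `i`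
(apply this to the powers of `X`: the group `G_ℓ` is then reductive, with the same invariants in all
tensor spaces as the motivic Galois group).

This file is about the first statement; the second one is the subject of
`MP_b4801b_ag.BoundedSocleDefects`. Fix the dimension `n` and the codimension `r`.

**Theorem.**

(1) For all `X` of dimension `n` over `k` the space `H^(2r)(X)(r)^G` is `E(X)` if and only if there is ONE
number `d`, for example `d = 10 ^ 100`, such that for all these `X` the codimension of `E(X)` in
`H^(2r)(X)(r)^G` is at most `d`.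

(2) For one polarized variety `(S, D)` of dimension `n` the equality holds if for some `N` and one smooth
complete intersection `V ⊆ S^N` of dimension `n` of divisors in multiples of the class `D + ... + D` the
codimension `d` of `E(V)` in `H^(2r)(V)(r)^G` satisfies `d dim H(S) < N`.

Proof. See `Pool.Agent.H44T.BR.Pair`: if `x ∈ H^(2r)(S)(r)^G` is orthogonal to the powers of `ξ` then
`p_{m*} p_j^* x = 0` for `m ≠ j` and `p_{j*} p_j^* x = κ x`, for the projections `p_l : V → S`. Let `M` be a
complement of `E(V)` and `N > d dim H(S)`; there is a nontrivial relation `∑ b_l p_{l*} = 0` on `M`, so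
`b_j κ x = ∑ b_l p_{l*} (p_j^* x)` is in the sum of the `p_{l*} E(V) ⊆ E(S)`.
-/

universe u v

namespace Pool.Agent.Results.MP_bbcdf5_ag.BoundedDefects

open Pool.Agent.H914 Pool.Agent.H914.VarClass Pool.Agent.H914.VarClass.Obj
  Pool.Agent.H914.WeilCohomology Pool.Agent.H44T.BR

/-- **All Tate classes are motivated for all varieties of dimension `n` if the defects are
bounded.** -/
theorem result {k : Type u} [Field k] {𝒱 : VarClass k} {ops : CycleOps 𝒱}
    (W : WeilCohomology.{u, v} ops) {G : Type*} [Group G]
    (ρ : ∀ X : 𝒱.Obj, Representation W.K G (W.H X)) (χ : G →* W.Kˣ)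
    (hG : IsGaloisAction W ρ χ) (Pol : ∀ X : 𝒱.Obj, X.Cycles → Prop) (n r : ℕ)
    (hP : HasPowers W Pol n) (E : ∀ X : 𝒱.Obj, Submodule W.K (W.H X))
    (hE : IsClassFamily W ρ χ n r E) :
    (TateClassesIn W ρ χ Pol n r E ↔ ∃ d, TateDefectAtMost W ρ χ Pol n r E d) ∧
      TateForPowers W ρ χ Pol n r E :=
  ⟨tateClasses_iff hG hP hE, tateClasses_of_power hG hP hE⟩

end Pool.Agent.Results.MP_bbcdf5_ag.BoundedDefects
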