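import Pool.Agent.V1141.SO.GIff

/-!
# The motivic Tate conjecture for `M ⊕ U` is equivalent to that for `U` and for endomorphisms

Let `K` be a finitely generated field of characteristic `0`, with absolute Galois group `Γ`, and let `G` be
the group of points of the motivic Galois group of a category of motives over `K` (motives of André, or
motives for absolute Hodge cycles) with values in the algebraic closure `k` of `ℚ_ℓ`; let `ι : Γ → G` be
the homomorphism given by the `ℓ`-adic realization and `χ` the character of `G` which belongs to
`ℚ(1)` (or to its dual), so that `χ ∘ ι` is the cyclotomic character.

Let `M` be the direct sum of motives `M i`, `i ∈ I`, of orthogonal or symplectic type: the realization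
`V i` over `k` of `M i` is a representation of `G` with a nondegenerate form, symmetric or alternating, with
values in `χ ^ w i` (`FormPiece`; a polarization), and only the scalars commute with a subgroup of finite
index of `G` on `V i` (the endomorphisms of `M i` over the algebraic closure are scalars); and let `U` be
an ARBITRARY motive, with realization `Y`, with the action `σ` of `G`. Suppose that for ONE element `γ`
of `Γ`, for example a Frobenius element, the eigenvalues on each `V i` are simple and at most one of them
is self-dual, and the eigenvalues of `γ` on the `V i` satisfy only the trivial multiplicative relations
with each other, with `χ(γ)` and with the eigenvalues of `γ` on `Y` (`NoRelationsWithEigenvalues`).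

**Theorem.** All Tate classes in the tensor powers of (the dual of) the realization of `M ⊕ U`, with all
twists, are motivic (`TateAreMotivic`: the multilinear forms which are multiplied by a power of `χ` by
a subgroup of finite index of `Γ` are multiplied by this power by a subgroup of finite index of `G`) if
and only if

* this holds for `U`, and
* only the scalars commute with a subgroup of finite index of `Γ` on `V i` (the Tate conjecture for the
  endomorphisms of `M i`).

As all motives are polarizable, and as the motivic Galois group of `U` is reductive, this property
of `U` (if `ℚ(1)` is a summand of `U`) says that the identity components of the `ℓ`-adic monodromy group and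
of the motivic Galois group of `U` are the same if the former is reductive; so the motivic Tate
conjecture (up to components: the motivic Mumford-Tate conjecture, to which it is equivalent) for `M ⊕ U`
is equivalent to that for `U` and for endomorphisms. For example (with `U = ℚ(1)`) the conjecture for
all tensors on `M` is reduced to the conjecture for endomorphisms, and such motives can be added to
motives for which the conjecture is known, for example to abelian motives of CM type. The dimensions, weights and Hodge numbers of the `M i` are
arbitrary, and the tensor powers are arbitrary: there is no bound on the degree.

The proof: the Lie algebra of the operators which kill the Tate classes contains the orthogonal and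
symplectic Lie algebras of all `V i`; by the first fundamental theorem for products of special
orthogonal and symplectic Lie algebras in all degrees (`Pool.Agent.V1141.SO.fftD`) the Tate classes with
values in the multilinear forms on `Y` are combinations of products of polarizations, discriminants and
Tate classes on `Y`; the discriminants are motivic. The eigenvalues of `γ` on the multilinear forms on
`Y` are products of inverses of eigenvalues on `Y`, without semisimplicity (`eig_forms`).
-/

set_option autoImplicit false

namespace Pool.Agent.Results.MP_bbcdf5_ag.MotivicTateTimes

open Module Pool.Agent.V1141.WT Pool.Agent.V1141.OF Pool.Agent.V1141.SO

/-- **All Tate classes on powers of `M ⊕ U` are motivic if and only if this holds for `U` and for the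
endomorphisms of the `M i`.** -/
theorem result {k : Type} [Field k] [CharZero k] [IsAlgClosed k]
    -- the Galois group and the motivic Galois group
    {Γ G : Type} [Group Γ] [Group G] (ι : Γ →* G) {χ : G →* k}
    -- the realizations of the motives `M i`
    {I : Type} [Fintype I] (P : I → FormPiece k χ) (hG : ∀ i, OnlyScalarEndos (P i).ρ)
    -- the realization of the motive `U`
    {Y : Type} [AddCommGroup Y] [Module k Y] [FiniteDimensional k Y] (σ : Representation k G Y)
    -- one element of the Galois group
    (γ : Γ) (hsimple : SimpleEigenvalues (restrictAll ι P) γ)
    (hrel : NoRelationsWithEigenvalues ι P σ γ) :
    TateAreMotivic ι χ (actY P σ) ↔
      TateAreMotivic ι χ (fun g y => move σ g y) ∧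
        ∀ i, OnlyScalarEndos ((P i).restrict ι).ρ := by
  classical
  exact giff ι P σ hG γ hsimple hrel

end Pool.Agent.Results.MP_bbcdf5_ag.MotivicTateTimes
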