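import Pool.Agent.V11219.MotMain

/-!
# The motivic Tate conjecture for motives of products: comparison of ranks

Let `W` be a Weil cohomology theory with algebraically closed coefficients (`ℓ`-adic cohomology with
coefficients in the algebraic closure of `ℚ_ℓ`) on a class of smooth projective varieties, and let `Γ` be a
group which acts on the cohomology of the varieties `X_i`, `Y_b` and `Z` with the formal properties of the
Galois group `Γ_k` of a finitely generated field `k` of characteristic zero (`χ` is the action on the Tate
twists). Let `C` be a system of classes (`ClassSystem`): for every variety `A` a space `C(A)` of cohomology
classes containing the classes of algebraic cycles and stable under products, pull-backs and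
push-forwards. In this problem `C(A)` is the space spanned by the motivated classes of André, or by the
absolute Hodge classes. `TateIn χ C A` is the statement that all classes of `A` on which a subgroup of finite
index of `Γ` acts by a power of `χ` are in `C(A)`.

All varieties `X_i` (`i` in a finite set) and `Y_b` (`b` in a finite set) have odd dimension, numerical
and homological equivalence coincide for them (for example curves, hypersurfaces, complete
intersections), and their transcendental cohomology `T(X_i)`, `T(Y_b)` (the orthogonal complement of the
algebraic classes) is concentrated in the middle degree; the `Y_b` have the same dimension, the
`T(X_i)` are irreducible under all subgroups of finite index and no two of them are isomorphic up to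
scalars. **Nothing else is assumed on the `Y_b`**: they may be arbitrary curves, for instance with
arbitrary endomorphisms of the Jacobians. Nothing at all is assumed on `Z`.

Let `N` be the set of the `g ∈ Γ` with `χ(g) = 1` which act trivially on the cohomology of `Z` and with
`(g - 1) ^ 2 = 0` on all `T(X_j)` and all `T(Y_b)` (inertia at the places `v` at which `Z` has good
reduction and the `X_j`, `Y_b` are curves with stable reduction, or hypersurfaces of odd dimension whose
reduction has ordinary double points; **all** of them may have bad reduction at `v`). Assume for
every `i`:

* **(small defects)** some `g ∈ N` has defects on `T(X_i)` without a common prime factor, or the defect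
  two; here the defects of `g` are the rank of `g - 1` on `T(X_i)` and the multiplicities of the nonzero
  eigenvalues of `(g - 1) (g' - 1)` on `T(X_i)`, for `g' ∈ N`. (Or: the conjugates of some `g ∈ N` act
  irreducibly on `T(X_i)` and the defects of all elements of `N` have no common prime factor.)
* **(larger rank)** for some `g ∈ N` the rank of `g - 1` on `T(X_i)` is larger than the sum of the
  ranks of `g - 1` on the `T(Y_b)`.

Let `Z₁` be a product of `Z` with arbitrary powers of the `Y_b`, and `T` a product of `Z₁` with arbitrary
powers of the `X_i`. Then the following are **equivalent**:

1. all potentially semi-invariant classes of `T` are in `C(T)`, and for **all** representations `M` of `Γ`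
   with an equivariant map `s` to the cohomology of `T` of even degree and a map `f` with `f ∘ s = 1`
   (direct factors) the elements of `M` which are invariant under a subgroup of finite index are in
   `f(C(T))`;
2. all potentially semi-invariant classes of `Z₁` are in `C(Z₁)`.

For the motivic Tate conjecture: a motive `M` which is a direct factor of sums of `h(T')(n)` for
varieties `T'` of this kind (powers of the `X_i`, of the `Y_b` and of `Z`) has tensor constructions which are of
the same kind, and the potentially invariant elements of their realizations are the realizations
of the combinations of motivated classes, by 1., if 2. is true for the products of powers of `Z` and the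
`Y_b`. This means `G_{ℓ,k}(M) = 𝒢_k(M)_{ℚ_ℓ}` (for the group of components one uses that a class
in `C(T')` which is invariant under `Γ_k` is a combination of classes defined over `k`), since both
groups are reductive and determined by their invariants. So the motivic Tate conjecture for these `M` is
reduced to the `Y_b` and `Z`, about which nothing is assumed; the hypotheses on the `X_i` are satisfied by
suitable curves and by hypersurfaces whose degenerations have ordinary double points.

Proof. By the theory of extremal elements of Lie algebras, Goursat's lemma and the comparison of ranks
(see `MP_3703a7_ag.SemistableProducts`) and by the first fundamental theorem a potentially semi-invariant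
class on the product of a power of `X_i` with `A` is a combination of products of algebraic classes of the
power with potentially semi-invariant classes of `A`. If `m` is an invariant element of a direct
factor `M`, then `s(m)` is potentially semi-invariant, so it belongs to `C(T)`, and `m = f(s(m))`.
-/

universe u

namespace Pool.Agent.Results.MP_bbcdf5_ag.SemistableProducts

open Pool.Agent.H914 Pool.Agent.H281R3.HT Pool.Agent.TH125.Gal Pool.Agent.V11219.Min
  Pool.Agent.V11219.Cls

/-- **The motivic Tate conjecture for motives of products: comparison of ranks.** -/
theorem result {k : Type u} [Field k] {𝒱 : VarClass k} {ops : CycleOps 𝒱}
    (W : WeilCohomology.{u, 0} ops) [IsAlgClosed W.K] {Γ : Type} [Group Γ] (χ : CharOf W Γ)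
    (C : Classes W) (hC : ClassSystem W C)
    {ι β : Type} [Finite ι] [Fintype β] (X : ι → GVar W Γ) (Y : β → GVar W Γ) (d : ℕ)
    (Z : GVar W Γ) (h : FamilyOver χ X Y d Z) (S' : Set β) (Z₁ : GVar W Γ)
    (hZ : Tower Y Z S' Z₁) (S : Set ι) (T : GVar W Γ) (hT : Tower X Z₁ S T) :
    (TateIn χ C T ∧ FactorsTate χ C T) ↔ TateIn χ C Z₁ :=
  factors_over hC h hZ hT

end Pool.Agent.Results.MP_bbcdf5_ag.SemistableProducts
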