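import Pool.Agent.Y132.AH.MT

/-!
# Tate classes and motivated classes on products with powers of varieties of symplectic type

`W` is the étale cohomology, with coefficients in an algebraically closed field `W.K` (an algebraic
closure of `ℚ_ℓ`), of the varieties of a class of smooth proper varieties over a finitely generated
field, with the action of the Galois group `Γ` (`GaloisData`; `χ` gives the action on the Tate
twists). A system of classes `C` (`IsSystem`) consists of spaces of cohomology classes on all
varieties which contain the algebraic classes and are closed under products, pull-backs and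
push-forwards. Examples: the linear combinations of motivated classes (André), of absolute Hodge
classes (Deligne), of algebraic classes. `TateIn G C Y` says that all Tate classes on `Y` are in
`C`: the classes `c` in `H^(2j)(Y)` such that `g c = χ(g)^j c` for all `g` in a subgroup of finite
index of `Γ`. For all powers of `Y` and the first two examples this is the equality of the identity
component of the group `G_ℓ` and of the motivic Galois group of `Y`, by reductivity of `G_ℓ`, which is
not assumed here.

`X i` is any family, possibly infinite, of odd-dimensional varieties such that homological and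
numerical equivalence coincide on `X i` and the transcendental cohomology `T i` (the orthogonal
complement of the algebraic classes) is in the middle degree (`OddMiddle`); the Galois group acts
irreducibly on the Lie algebra `sp(T i)` of the operators which are skew with respect to the
intersection form, some element has two eigenvalues on `T i` whose quotient is not a root of unity,
and the representations `sp(T i)` are pairwise not isomorphic (`BigFamily`). `Z` is ANY variety.
-/

open CategoryTheory AlgebraicGeometry

universe u

namespace Pool.Agent.Results.MP_bbcdf5_ag.SmallProductsMotivicTate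

open Pool.Agent.H914 Pool.Agent.H914.VarClass Pool.Agent.H914.VarClass.Obj
  Pool.Agent.H914.WeilCohomology Pool.Agent.H281R3.HT Pool.Agent.W552 Pool.Agent.Y132.AF
  Pool.Agent.Y132.AH

variable {k : Type u} [Field k] {𝒱 : VarClass k} {ops : CycleOps 𝒱}
  {W : WeilCohomology.{u, 0} ops} {Γ : Type} [Group Γ]

/-- A space of cohomology classes on every variety. -/
def Spaces (W : WeilCohomology.{u, 0} ops) : Type _ := ∀ X : 𝒱.Obj, Submodule W.K (W.H X)

/-- The class `a` on `X` is in the space given by `C`. -/
def In (C : Spaces W) (X : 𝒱.Obj) (a : W.H X) : Prop := a ∈ C X

/-- The algebraic classes are in the spaces. -/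
def HasAlgebraic (C : Spaces W) : Prop := ∀ X, ∀ a ∈ algSpan W X, In C X a

/-- The spaces are closed under products. -/
def ClosedMul (C : Spaces W) : Prop := ∀ X a b, In C X a → In C X b → In C X (a * b)

/-- The spaces are closed under pull-backs. -/
def ClosedPull (C : Spaces W) : Prop :=
  ∀ (X Y : 𝒱.Obj) (f : X ⟶ Y) (b : W.H Y), In C Y b → In C X (W.map f b)

/-- The spaces are closed under push-forwards. -/
def ClosedPush (C : Spaces W) : Prop :=
  ∀ (X Y : 𝒱.Obj) (f : X ⟶ Y) (a : W.H X), In C X a → In C Y (W.push f a)

/-- A system of classes (for example the linear combinations of algebraic, motivated or absolute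
Hodge classes): spaces of cohomology classes on all varieties which contain the algebraic classes
and are closed under products, pull-backs and push-forwards. -/
structure IsSystem (C : Spaces W) : Prop where
  algebraic : HasAlgebraic C
  mul : ClosedMul C
  pull : ClosedPull C
  push : ClosedPush C

/-- All Tate classes on `Y` are in the system. -/
def TateIn (G : GaloisData W Γ) (C : Spaces W) (Y : 𝒱.Obj) : Prop :=
  ∀ j c, IsTate G Y j c → In C Y c

/-- All Tate classes on all powers of `Y` are in the system. -/
def TateInAll (G : GaloisData W Γ) (C : Spaces W) (Y : 𝒱.Obj) : Prop :=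
  ∀ n, TateIn G C (powN Y n)

/-- `∑_{i ∈ B} dim T i ≤ dim H(Z)`, and `B` contains no `i` such that the slopes of `T i` are
separated from those of `Z`. -/
structure FewNear (G : GaloisData W Γ) {ι : Type} (X : ι → 𝒱.Obj) (Z : 𝒱.Obj) (B : Finset ι) :
    Prop where
  sum_le : ∑ i ∈ B, trDim W (X i) ≤ totDim W Z
  near : ∀ i ∈ B, ¬SlopeSep G (X i) Z

/-- For every product of `Z` with powers of the `X i`, given by a list `L` of indices: all Tate
classes on the product are in `C` if and only if this holds for the small partial products `L'`
(`SmallDim`). -/
def ReducesTo (G : GaloisData W Γ) (C : Spaces W) {ι : Type} [DecidableEq ι]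
    (X : ι → 𝒱.Obj) (Z : 𝒱.Obj) (B : Finset ι) : Prop :=
  ∀ L : List ι, TateIn G C (prodList X Z L) ↔
    ∀ L' : List ι, L'.Sublist L → SmallDim W X Z B L' → TateIn G C (prodList X Z L')

/-- the bundled system -/
def IsSystem.sys {C : Spaces W} (hC : IsSystem C) : ClassSystem W where
  C := C
  alg_le X a ha := hC.algebraic X a ha
  mul_mem {X a b} ha hb := hC.mul X a b ha hb
  map_mem {X Y} f {b} hb := hC.pull X Y f b hb
  push_mem {X Y} f {a} ha := hC.push X Y f a ha

theorem tateIn_iff (G : GaloisData W Γ) {C : Spaces W} (hC : IsSystem C) (Y : 𝒱.Obj) :
    TateIn G C Y ↔ Pool.Agent.Y132.AH.TateIn G hC.sys Y := Iff.rfl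

theorem tateIn_iso (G : GaloisData W Γ) {C : Spaces W} (hC : IsSystem C) {A B : 𝒱.Obj}
    (e : A ≅ B) (h : TateIn G C A) : TateIn G C B := by
  intro j c hc
  have h1 : W.map e.inv (W.map e.hom c) = c := by
    rw [← W.map_comp, e.inv_hom_id, W.map_id]
  have h2 := hC.pull _ _ e.inv _ (h j _ (isTate_map G e.hom hc))
  rwa [h1] at h2

/-- (1) There is a finite set `B` of exceptions, with `∑_{i ∈ B} dim T i ≤ dim H(Z)`, which contains
no `i` such that the slopes of `T i` are separated from those of `Z` (`FewNear`), with the following
property (`ReducesTo`). For every product of `Z` with powers of the `X i`, given by a list `L` of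
indices, all Tate classes on the product are in `C` if and only if this holds for the partial
products `L'` which are small (`SmallDim`): the entries of `L'` are in `B`, and for some `m` the numbers `∏ (n_i + 1)` and
`∑ dim T i` (`n_i` the number of the entries `i`, over the different entries `i` of `L'`) are at most
the Betti number `b_m(Z)`. In particular only finitely many products have to be considered.

(2) If all `X i` are separated from `Z`, then for every product of `Z` with powers of the `X i`: all
Tate classes on all powers of the product are in `C` if and only if all Tate classes on all powers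
of `Z` are in `C`. -/
theorem result [IsAlgClosed W.K] (G : GaloisData W Γ) (C : Spaces W) (hC : IsSystem C)
    {ι : Type} [DecidableEq ι] (X : ι → 𝒱.Obj) (hX : ∀ i, OddMiddle W (X i))
    (hG : BigFamily G X) (Z : 𝒱.Obj) :
    (∃ B : Finset ι, FewNear G X Z B ∧ ReducesTo G C X Z B) ∧
    ((∀ i, SlopeSep G (X i) Z) →
      ∀ L : List ι, TateInAll G C (prodList X Z L) ↔ TateInAll G C Z) := by
  have hA := bigFamily_ad G hX hG
  refine ⟨?_, fun hsep L => forall_congr' fun n => ?_⟩
  · obtain ⟨B, hB, hs, hiff⟩ := tate_iff G Z hA hC.sys
    refine ⟨B, ⟨hB, fun i hi h => not_stableBound G h (hs i hi)⟩,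
      fun L => ⟨fun h L' hsub _ => ?_,
      fun h => (hiff L).2 fun L' hsub hL => h L' hsub (small_list G hL)⟩⟩
    exact (classConj_tate G hC.sys _).1 (class_sub hA (var_graded G Z) hsub
      (var_tower G X Z L) (var_tower G X Z L') ((classConj_tate G hC.sys _).2 h))
  · obtain ⟨L', ⟨e⟩⟩ := iso_pow X Z L n
    have h3 : TateIn G C (prodList X (powN Z n) L') ↔ TateIn G C (powN Z n) :=
      tate_sep G (powN Z n) hA hC.sys (fun i => slopeSep_pow G (hsep i) n) L'
    rw [← h3]
    exact ⟨fun h => tateIn_iso G hC e h, fun h => tateIn_iso G hC e.symm h⟩

end Pool.Agent.Results.MP_bbcdf5_ag.SmallProductsMotivicTate
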